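import Pool.Agent.helper17.CH.SpecQ

/-! Project CH (MP_5628fe_nt), row CBP: the switched sequence in short intervals. -/

set_option autoImplicit false

namespace Pool.Agent.CH

open Finset ArithmeticFunction MeasureTheory

private theorem CBP_sq (y u : ℝ) (S : Finset ℕ) (hy : 2 ≤ y) (hu : 0 ≤ u)
    (hS : ∀ b ∈ S, 1 ≤ b ∧ (b : ℝ) ≤ 2 * u ∧ ∃ q : ℕ, y ≤ (q : ℝ) ∧ q ^ 2 ∣ b) :
    ((S).card : ℝ) ≤ 4 * u / y := by
  set k : ℕ := ⌈y⌉₊ - 1 with hk
  set M : ℕ := ⌊2 * u⌋₊ with hM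
  have hcp : 2 ≤ ⌈y⌉₊ := by
    have h1 : y ≤ (⌈y⌉₊ : ℝ) := Nat.le_ceil y
    have h2 : (2 : ℝ) ≤ (⌈y⌉₊ : ℝ) := hy.trans h1
    exact_mod_cast h2
  have hsub : S ⊆ (Ioc k (max k M)).biUnion fun q => (Ioc 0 M).filter fun b => q ^ 2 ∣ b := by
    intro b hb
    obtain ⟨hb1, hb2, q, hq, hqb⟩ := hS b hb
    have hbM : b ≤ M := Nat.le_floor hb2
    have hq1 : k < q := by
      have h1 : ⌈y⌉₊ ≤ q := Nat.ceil_le.2 hq
      omega
    have hqM : q ≤ M := by
      have h1 : q ≤ q ^ 2 := Nat.le_self_pow (by norm_num) q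
      have h2 := Nat.le_of_dvd (by omega) hqb
      omega
    rw [Finset.mem_biUnion]
    exact ⟨q, Finset.mem_Ioc.2 ⟨hq1, hqM.trans (le_max_right _ _)⟩,
      Finset.mem_filter.2 ⟨Finset.mem_Ioc.2 ⟨by omega, hbM⟩, hqb⟩⟩
  have hk0 : k ≠ 0 := by omega
  have hky : y / 2 ≤ (k : ℝ) := by
    have h1 : y ≤ (⌈y⌉₊ : ℝ) := Nat.le_ceil y
    have h2 : (⌈y⌉₊ : ℝ) = (k : ℝ) + 1 := by
      have : ⌈y⌉₊ = k + 1 := by omega
      rw [this]; push_cast; ring
    linarith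
  have hMu : (M : ℝ) ≤ 2 * u := Nat.floor_le (by linarith)
  have h1 : ((S).card : ℝ) ≤ ∑ q ∈ Ioc k (max k M), 2 * u * (((q : ℝ)) ^ 2)⁻¹ := by
    have h2 : (S).card ≤ ∑ q ∈ Ioc k (max k M), M / q ^ 2 := by
      refine (Finset.card_le_card hsub).trans (Finset.card_biUnion_le.trans ?_)
      refine Finset.sum_le_sum fun q _ => ?_
      rw [Nat.Ioc_filter_dvd_card_eq_div]
    have h3 : ((S).card : ℝ) ≤ ∑ q ∈ Ioc k (max k M), ((M / q ^ 2 : ℕ) : ℝ) := by
      exact_mod_cast h2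
    refine h3.trans (Finset.sum_le_sum fun q _ => ?_)
    have h4 : ((M / q ^ 2 : ℕ) : ℝ) ≤ (M : ℝ) / ((q ^ 2 : ℕ) : ℝ) := Nat.cast_div_le
    refine h4.trans ?_
    push_cast
    rw [div_eq_mul_inv]
    exact mul_le_mul_of_nonneg_right hMu (by positivity)
  rw [← Finset.mul_sum] at h1
  have h2 : ∑ q ∈ Ioc k (max k M), (((q : ℝ)) ^ 2)⁻¹ ≤ 2 / y := by
    refine (sum_Ioc_inv_sq_le_sub (α := ℝ) hk0 (le_max_left k M)).trans ?_
    have h3 : (0 : ℝ) ≤ ((max k M : ℕ) : ℝ)⁻¹ := by positivity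
    have h4 : ((k : ℝ))⁻¹ ≤ 2 / y := by
      rw [inv_le_comm₀ (by positivity) (by positivity), inv_div]
      exact hky
    linarith
  calc ((S).card : ℝ) ≤ 2 * u * (2 / y) := h1.trans (mul_le_mul_of_nonneg_left h2 (by linarith))
    _ = 4 * u / y := by ring

/-- the six orders -/
private theorem CBP_six (p a b c : ℕ) (hab : a < b) (hbc : b < c) (T : Finset ((ℕ × ℕ) × (ℕ × ℕ)))
    (hT : ∀ x y z : ℕ, (x = a ∨ x = b ∨ x = c) → (y = a ∨ y = b ∨ y = c) →
      (z = a ∨ z = b ∨ z = c) → x * y * z = a * b * c → ((p, x), (y, z)) ∈ T) : 6 ≤ (T).card := by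
  have hs : ({((p, a), (b, c)), ((p, a), (c, b)), ((p, b), (a, c)), ((p, b), (c, a)),
      ((p, c), (a, b)), ((p, c), (b, a))} : Finset ((ℕ × ℕ) × (ℕ × ℕ))) ⊆ T := by
    intro w hw
    simp only [Finset.mem_insert, Finset.mem_singleton] at hw
    rcases hw with rfl | rfl | rfl | rfl | rfl | rfl
    · exact hT _ _ _ (by simp) (by simp) (by simp) rfl
    · exact hT _ _ _ (by simp) (by simp) (by simp) (by ring)
    · exact hT _ _ _ (by simp) (by simp) (by simp) (by ring)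
    · exact hT _ _ _ (by simp) (by simp) (by simp) (by ring)
    · exact hT _ _ _ (by simp) (by simp) (by simp) (by ring)
    · exact hT _ _ _ (by simp) (by simp) (by simp) (by ring)
  refine le_trans (le_of_eq ?_) (Finset.card_le_card hs)
  have h1 : a ≠ b := by omega
  have h2 : a ≠ c := by omega
  have h3 : b ≠ c := by omega
  have h1' : b ≠ a := by omega
  have h2' : c ≠ a := by omega
  have h3' : c ≠ b := by omega
  rw [Finset.card_insert_of_notMem, Finset.card_insert_of_notMem, Finset.card_insert_of_notMem,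
    Finset.card_insert_of_notMem, Finset.card_insert_of_notMem, Finset.card_singleton] <;>
    simp only [Finset.mem_insert, Finset.mem_singleton, Prod.mk.injEq, true_and, h1, h2, h3, h1',
      h2', h3', false_and, and_false, or_false, not_false_eq_true]

private theorem CBP_asym (B : ℕ) (v₀ : ℝ) : ∃ N₀ : ℕ, ∀ N : ℕ, N₀ ≤ N →
    50 ≤ Real.log N ∧ 2 ^ (B + 1) ≤ Real.log N ∧ 2 * v₀ ≤ (N : ℝ) ^ (3 / 4 : ℝ) ∧
    20000 * Real.log N ^ (B + 1) ≤ (N : ℝ) ^ (3 / 4 : ℝ) := by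
  have hN : Filter.Tendsto (fun N : ℕ => (N : ℝ)) Filter.atTop Filter.atTop :=
    tendsto_natCast_atTop_atTop
  have hlog : Filter.Tendsto (fun N : ℕ => Real.log (N : ℝ)) Filter.atTop Filter.atTop :=
    Real.tendsto_log_atTop.comp hN
  have hpow : Filter.Tendsto (fun N : ℕ => (N : ℝ) ^ (3 / 4 : ℝ)) Filter.atTop Filter.atTop :=
    (tendsto_rpow_atTop (by norm_num : (0 : ℝ) < 3 / 4)).comp hN
  have h2 : (fun t : ℝ => Real.log t ^ (B + 1)) =o[Filter.atTop] fun t : ℝ => t ^ (3 / 4 : ℝ) :=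
    (isLittleO_log_rpow_rpow_atTop ((B + 1 : ℕ) : ℝ) (by norm_num)).congr_left fun t =>
      Real.rpow_natCast _ _
  have h3 : ∀ᶠ t : ℝ in Filter.atTop, 20000 * Real.log t ^ (B + 1) ≤ t ^ (3 / 4 : ℝ) := by
    have h4 := h2.bound (show (0 : ℝ) < 1 / 20000 by norm_num)
    filter_upwards [h4, Filter.eventually_ge_atTop (1 : ℝ)] with t ht ht1
    have hlt : 0 ≤ Real.log t := Real.log_nonneg ht1
    rw [Real.norm_of_nonneg (by positivity), Real.norm_of_nonneg (by positivity)] at ht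
    linarith
  have h5 : ∀ᶠ N : ℕ in Filter.atTop, 50 ≤ Real.log (N : ℝ) ∧
      (2 : ℝ) ^ (B + 1) ≤ Real.log (N : ℝ) ∧ 2 * v₀ ≤ (N : ℝ) ^ (3 / 4 : ℝ) ∧
      20000 * Real.log (N : ℝ) ^ (B + 1) ≤ (N : ℝ) ^ (3 / 4 : ℝ) := by
    filter_upwards [hlog.eventually_ge_atTop 50, hlog.eventually_ge_atTop (2 ^ (B + 1)),
      hpow.eventually_ge_atTop (2 * v₀), hN.eventually h3] with N h6 h7 h8 h9
    exact ⟨h6, h7, h8, h9⟩
  obtain ⟨N₀, h⟩ := Filter.eventually_atTop.1 h5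
  exact ⟨N₀, h⟩

theorem CBP (h1 : SP_stmt) (h2 : PI_stmt) : CBP_stmt := by
  classical
  intro B
  obtain ⟨N₁, hSP⟩ := h1
  obtain ⟨v₀, hPI⟩ := h2 (1 / 50) (B + 1) (by norm_num)
  obtain ⟨N₂, hN₂⟩ := CBP_asym B v₀
  refine ⟨max (max N₁ N₂) 1, fun N hN z y u h hPZ hu1 hu2 hh1 hh2 => ?_⟩
  have hNN₁ : N₁ ≤ N := (le_max_left _ _).trans ((le_max_left _ _).trans hN)
  have hNN₂ : N₂ ≤ N := (le_max_right _ _).trans ((le_max_left _ _).trans hN)
  have hN1 : 1 ≤ N := (le_max_right _ _).trans hN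
  obtain ⟨hL, hLB, hv₀, hsq⟩ := hN₂ N hNN₂
  obtain ⟨hz, hzy, hy4, hyN⟩ := hPZ
  have hNr : (1 : ℝ) ≤ N := by exact_mod_cast hN1
  have hN0 : (0 : ℝ) < N := by linarith
  set L : ℝ := Real.log N with hLdef
  have hL0 : 0 < L := by linarith
  have hu0 : 0 < u := lt_of_lt_of_le (by positivity) hu1
  have hh0 : 0 < h := lt_of_lt_of_le (by positivity) hh1
  have hy0 : 0 < y := by
    have : 0 < (N : ℝ) ^ (1 / 6 : ℝ) := by positivity
    linarith
  -- y ≥ N^(3/4)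
  have hyN34 : (N : ℝ) ^ (3 / 4 : ℝ) ≤ y := by
    have e1 : ((N : ℝ) ^ (3 / 4 : ℝ)) ^ 4 = (N : ℝ) ^ 3 := by
      rw [← Real.rpow_natCast, ← Real.rpow_mul hN0.le]
      norm_num
    have h3 : ((N : ℝ) ^ (3 / 4 : ℝ)) ^ 4 ≤ y ^ 4 := by
      rw [e1]
      have : 0 ≤ (N : ℝ) ^ 3 := by positivity
      linarith
    exact le_of_pow_le_pow_left₀ (by norm_num) hy0.le h3
  have hL1 : 1 ≤ L ^ (B + 1) := one_le_pow₀ (by linarith)
  have hy2 : 2 ≤ y := by linarith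
  set S : Finset ℕ := (BN N z y).filter fun b : ℕ => u < (b : ℝ) ∧ (b : ℝ) ≤ u + h with hS
  set S2 : Finset ℕ := S.filter fun b => ∃ q : ℕ, y ≤ (q : ℝ) ∧ q ^ 2 ∣ b with hS2
  set S1 : Finset ℕ := S.filter fun b => ¬ ∃ q : ℕ, y ≤ (q : ℝ) ∧ q ^ 2 ∣ b with hS1
  have hcard : (S).card = (S2).card + (S1).card := (Finset.card_filter_add_card_filter_not _).symm
  -- the numbers with a square factor
  have hS2c : ((S2).card : ℝ) ≤ 4 * u / y := by
    apply CBP_sq y u S2 hy2 hu0.le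
    intro b hb
    rw [hS2, Finset.mem_filter, hS, Finset.mem_filter, BN, Finset.mem_filter, Finset.mem_Ioc] at hb
    refine ⟨hb.1.1.1.1, ?_, hb.2⟩
    linarith [hb.1.2.2]
  -- the quadruples
  set P : Finset ℕ := (Icc 1 (64 * N ^ 3)).filter (fun p => P1 z y p) with hP
  set Q : Finset ℕ := (Icc 1 (64 * N ^ 3)).filter (fun q : ℕ => q.Prime ∧ y ≤ (q : ℝ)) with hQ
  set T : Finset ((ℕ × ℕ) × (ℕ × ℕ)) := ((P ×ˢ Q) ×ˢ (Q ×ˢ Q)).filter fun w =>
    u < (w.1.1 : ℝ) * w.1.2 * w.2.1 * w.2.2 ∧ (w.1.1 : ℝ) * w.1.2 * w.2.1 * w.2.2 ≤ u + h with hT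
  have hST : 6 * (S1).card ≤ (T).card := by
    set f : (ℕ × ℕ) × (ℕ × ℕ) → ℕ := fun w => w.1.1 * (w.1.2 * w.2.1 * w.2.2) with hf
    have h3 : #(T.filter fun w => f w ∈ S1) = ∑ b ∈ S1, #((T.filter fun w => f w ∈ S1).filter
        fun w => f w = b) := Finset.card_eq_sum_card_fiberwise (fun w hw => by
          simpa using (Finset.mem_filter.1 hw).2)
    have h4 : ∀ b ∈ S1, 6 ≤ #((T.filter fun w => f w ∈ S1).filter fun w => f w = b) := by
      intro b hb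
      have hb' := hb
      rw [hS1, Finset.mem_filter, hS, Finset.mem_filter, BN, Finset.mem_filter,
        Finset.mem_Ioc] at hb'
      obtain ⟨⟨⟨⟨hb0, hb64⟩, hBs⟩, hbu, hbh⟩, hnsq⟩ := hb'
      obtain ⟨p, k, hp, ⟨p₂, p₃, p₄, hp₂, hp₃, hp₄, hyp, h23, h34, hk⟩, hbpk⟩ := hBs
      have hyp₃ : y ≤ (p₃ : ℝ) := hyp.trans (by exact_mod_cast h23)
      have hyp₄ : y ≤ (p₄ : ℝ) := hyp₃.trans (by exact_mod_cast h34)
      have hlt23 : p₂ < p₃ := by
        rcases h23.lt_or_eq with h5 | h5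
        · exact h5
        · exfalso
          apply hnsq
          refine ⟨p₃, hyp₃, ?_⟩
          rw [hbpk, hk, h5]
          exact ⟨p * p₄, by ring⟩
      have hlt34 : p₃ < p₄ := by
        rcases h34.lt_or_eq with h5 | h5
        · exact h5
        · exfalso
          apply hnsq
          refine ⟨p₃, hyp₃, ?_⟩
          rw [hbpk, hk, ← h5]
          exact ⟨p * p₂, by ring⟩
      apply CBP_six p p₂ p₃ p₄ hlt23 hlt34
      intro x₁ x₂ x₃ hx₁ hx₂ hx₃ hprod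
      have hfb : p * (x₁ * x₂ * x₃) = b := by rw [hprod, hbpk, hk]
      have hpr : ∀ x : ℕ, (x = p₂ ∨ x = p₃ ∨ x = p₄) → x.Prime ∧ y ≤ (x : ℝ) := by
        rintro x (rfl | rfl | rfl)
        · exact ⟨hp₂, hyp⟩
        · exact ⟨hp₃, hyp₃⟩
        · exact ⟨hp₄, hyp₄⟩
      have hdv : ∀ x : ℕ, x ∣ b → 1 ≤ x ∧ x ≤ 64 * N ^ 3 := by
        intro x hx
        exact ⟨Nat.pos_of_dvd_of_pos hx hb0, (Nat.le_of_dvd hb0 hx).trans hb64⟩
      have hmQ : ∀ x : ℕ, (x = p₂ ∨ x = p₃ ∨ x = p₄) → x ∣ b → x ∈ Q := by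
        intro x hx hxb
        rw [hQ, Finset.mem_filter, Finset.mem_Icc]
        exact ⟨hdv x hxb, hpr x hx⟩
      have hcast : (p : ℝ) * x₁ * x₂ * x₃ = (b : ℝ) := by
        rw [← hfb]; push_cast; ring
      rw [Finset.mem_filter, Finset.mem_filter, hT, Finset.mem_filter, Finset.mem_product,
        Finset.mem_product, Finset.mem_product]
      simp only [hf]
      rw [hfb, hcast]
      refine ⟨⟨⟨⟨⟨?_, ?_⟩, ?_, ?_⟩, hbu, hbh⟩, hb⟩, rfl⟩
      · rw [hP, Finset.mem_filter, Finset.mem_Icc]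
        exact ⟨hdv p ⟨_, hfb.symm⟩, hp⟩
      · exact hmQ _ hx₁ ⟨p * (x₂ * x₃), by rw [← hfb]; ring⟩
      · exact hmQ _ hx₂ ⟨p * (x₁ * x₃), by rw [← hfb]; ring⟩
      · exact hmQ _ hx₃ ⟨p * (x₁ * x₂), by rw [← hfb]; ring⟩
    calc 6 * (S1).card = ∑ b ∈ S1, 6 := by rw [Finset.sum_const, smul_eq_mul, mul_comm]
      _ ≤ #(T.filter fun w => f w ∈ S1) := by rw [h3]; exact Finset.sum_le_sum h4
      _ ≤ (T).card := Finset.card_filter_le _ _
  -- the number of quadruples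
  set K : ℝ := (51 / 50) ^ 2 * (4 / 3) * (h / L) with hK
  have hinner : ∀ p ∈ P, ∀ p₂ ∈ Q, ∀ p₃ ∈ Q,
      (#(Q.filter fun p₄ : ℕ => u < (p : ℝ) * p₂ * p₃ * p₄ ∧ (p : ℝ) * p₂ * p₃ * p₄ ≤ u + h) : ℝ) ≤
        if (p : ℝ) * p₂ * p₃ * y ≤ 2 * u then K * (1 / ((p : ℝ) * p₂ * p₃)) else 0 := by
    intro p hp p₂ hp₂ p₃ hp₃
    rw [hP, Finset.mem_filter, Finset.mem_Icc] at hp
    rw [hQ, Finset.mem_filter, Finset.mem_Icc] at hp₂ hp₃
    have hp0 : (0 : ℝ) < p := by exact_mod_cast hp.1.1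
    have hp₂0 : (0 : ℝ) < p₂ := by exact_mod_cast hp₂.1.1
    have hp₃0 : (0 : ℝ) < p₃ := by exact_mod_cast hp₃.1.1
    set D : ℝ := (p : ℝ) * p₂ * p₃ with hD
    have hD0 : 0 < D := by positivity
    split_ifs with hc
    · -- v = u / D
      have hvy : y / 2 ≤ u / D := by
        rw [le_div_iff₀ hD0]; linarith
      have hvN : (N : ℝ) ^ (3 / 4 : ℝ) / 2 ≤ u / D := by linarith
      have hv0 : 0 < u / D := by positivity
      have hlogv : 3 / 4 * L - Real.log 2 ≤ Real.log (u / D) := by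
        have h3 : Real.log ((N : ℝ) ^ (3 / 4 : ℝ) / 2) ≤ Real.log (u / D) :=
          Real.log_le_log (by positivity) hvN
        rw [Real.log_div (by positivity) (by norm_num), Real.log_rpow hN0] at h3
        exact h3
      have hlog2 : Real.log 2 ≤ 7 / 10 := by have := Real.log_two_lt_d9; linarith
      have hlogv2 : 50 / 51 * (3 / 4 * L) ≤ Real.log (u / D) := by linarith
      have hlogv3 : L / 2 ≤ Real.log (u / D) := by linarith
      have hlv0 : 0 < Real.log (u / D) := by linarith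
      have h4 : L ^ B ≤ Real.log (u / D) ^ (B + 1) := by
        have h5 : (L / 2) ^ (B + 1) ≤ Real.log (u / D) ^ (B + 1) :=
          pow_le_pow_left₀ (by linarith) hlogv3 _
        refine le_trans ?_ h5
        rw [div_pow, le_div_iff₀ (by positivity), pow_succ L B]
        exact mul_le_mul_of_nonneg_left hLB (by positivity)
      have h6 : (u / D) / Real.log (u / D) ^ (B + 1) ≤ h / D := by
        rw [div_right_comm]
        apply div_le_div_of_nonneg_right _ hD0.le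
        refine le_trans ?_ hh1
        exact div_le_div_of_nonneg_left hu0.le (by positivity) h4
      have h7 : h / D ≤ u / D := div_le_div_of_nonneg_right hh2 hD0.le
      have h8 := hPI (u / D) (h / D) (by linarith) h6 h7
      have h9 : (#(Q.filter fun p₄ : ℕ => u < D * p₄ ∧ D * p₄ ≤ u + h) : ℝ) ≤
          (#((Ioc ⌊u / D⌋₊ ⌊u / D + h / D⌋₊).filter Nat.Prime) : ℝ) := by
        have h10 : (Q.filter fun p₄ : ℕ => u < D * p₄ ∧ D * p₄ ≤ u + h) ⊆
            (Ioc ⌊u / D⌋₊ ⌊u / D + h / D⌋₊).filter Nat.Prime := by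
          intro x hx
          rw [Finset.mem_filter, hQ, Finset.mem_filter] at hx
          obtain ⟨⟨-, hxp, -⟩, hx1, hx2⟩ := hx
          rw [Finset.mem_filter, Finset.mem_Ioc]
          refine ⟨⟨?_, ?_⟩, hxp⟩
          · rw [Nat.floor_lt hv0.le, div_lt_iff₀ hD0]
            linarith
          · apply Nat.le_floor
            rw [← add_div, le_div_iff₀ hD0]
            linarith
        exact_mod_cast Finset.card_le_card h10
      refine h9.trans (h8.trans ?_)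
      have h11 : (1 + 1 / 50) * (h / D) / Real.log (u / D) ≤
          (1 + 1 / 50) * (h / D) / (50 / 51 * (3 / 4 * L)) := by
        apply div_le_div_of_nonneg_left (by positivity) (by positivity) hlogv2
      refine h11.trans (le_of_eq ?_)
      rw [hK]
      field_simp
      norm_num
    · have h3 : (Q.filter fun p₄ : ℕ => u < D * p₄ ∧ D * p₄ ≤ u + h) = ∅ := by
        rw [Finset.filter_eq_empty_iff]
        intro x hx hx2
        rw [hQ, Finset.mem_filter] at hx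
        apply hc
        have h4 : D * y ≤ D * x := mul_le_mul_of_nonneg_left hx.2.2 hD0.le
        linarith [hx2.2]
      rw [h3, Finset.card_empty, Nat.cast_zero]
  have hTc : ((T).card : ℝ) ≤ K * (213 / 1000) := by
    have h3 : ((T).card : ℝ) = ∑ p ∈ P, ∑ p₂ ∈ Q, ∑ p₃ ∈ Q,
        (#(Q.filter fun p₄ : ℕ => u < (p : ℝ) * p₂ * p₃ * p₄ ∧
          (p : ℝ) * p₂ * p₃ * p₄ ≤ u + h) : ℝ) := by
      rw [hT, Finset.card_filter]
      push_cast
      rw [Finset.sum_product, Finset.sum_product]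
      refine Finset.sum_congr rfl fun p _ => Finset.sum_congr rfl fun p₂ _ => ?_
      rw [Finset.sum_product]
      refine Finset.sum_congr rfl fun p₃ _ => ?_
      rw [Finset.card_filter]
      push_cast
      rfl
    rw [h3]
    have h4 := hSP N hNN₁ z y u ⟨hz, hzy, hy4, hyN⟩ hu0 hu2
    have hK0 : 0 ≤ K := by positivity
    have h5 : ∑ p ∈ P, ∑ p₂ ∈ Q, ∑ p₃ ∈ Q, (if (p : ℝ) * p₂ * p₃ * y ≤ 2 * u then
        1 / ((p : ℝ) * p₂ * p₃) else 0) ≤ 213 / 1000 := by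
      refine le_trans (le_of_eq ?_) h4
      refine Finset.sum_congr (Finset.ext fun x => by simp only [hP, Finset.mem_filter])
        fun p _ => Finset.sum_congr (Finset.ext fun x => by simp only [hQ, Finset.mem_filter])
          fun p₂ _ => ?_
      rw [← Finset.sum_filter]
      refine Finset.sum_congr (Finset.ext fun x => ?_) fun _ _ => rfl
      simp only [hQ, Finset.mem_filter, and_assoc]
    refine le_trans ?_ (mul_le_mul_of_nonneg_left h5 hK0)
    calc ∑ p ∈ P, ∑ p₂ ∈ Q, ∑ p₃ ∈ Q,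
          (#(Q.filter fun p₄ : ℕ => u < (p : ℝ) * p₂ * p₃ * p₄ ∧
            (p : ℝ) * p₂ * p₃ * p₄ ≤ u + h) : ℝ)
        ≤ ∑ p ∈ P, ∑ p₂ ∈ Q, ∑ p₃ ∈ Q, (if (p : ℝ) * p₂ * p₃ * y ≤ 2 * u then
            K * (1 / ((p : ℝ) * p₂ * p₃)) else 0) :=
          Finset.sum_le_sum fun p hp => Finset.sum_le_sum fun p₂ hp₂ =>
            Finset.sum_le_sum fun p₃ hp₃ => hinner p hp p₂ hp₂ p₃ hp₃
      _ = K * ∑ p ∈ P, ∑ p₂ ∈ Q, ∑ p₃ ∈ Q, (if (p : ℝ) * p₂ * p₃ * y ≤ 2 * u then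
            1 / ((p : ℝ) * p₂ * p₃) else 0) := by
          simp only [Finset.mul_sum, mul_ite, mul_zero]
  have hfin : ((S).card : ℝ) ≤ 4 * u / y + K * (213 / 1000) / 6 := by
    have h3 : (6 : ℝ) * (S1).card ≤ (T).card := by exact_mod_cast hST
    rw [hcard]
    push_cast
    linarith
  have hlast : 4 * u / y ≤ 75 / 100000 * (h / L) := by
    have h3 : 4 * u / y ≤ 4 * u / (20000 * L ^ (B + 1)) :=
      div_le_div_of_nonneg_left (by positivity) (by positivity) (hsq.trans hyN34)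
    have h4 : u / L ^ (B + 1) ≤ h / L := by
      rw [pow_succ, ← div_div]
      exact div_le_div_of_nonneg_right hh1 hL0.le
    have h5 : 4 * u / (20000 * L ^ (B + 1)) = 4 / 20000 * (u / L ^ (B + 1)) := by
      field_simp
    have h6 : 0 ≤ h / L := by positivity
    linarith
  have hKe : K * (213 / 1000) / 6 = (51 / 50) ^ 2 * (4 / 3) * (213 / 1000) / 6 * (h / L) := by
    rw [hK]; ring
  have h6 : 0 ≤ h / L := by positivity
  have h7 : 1 / 20 * h / L = 1 / 20 * (h / L) := by ring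
  rw [h7]
  rw [hKe] at hfin
  nlinarith

end Pool.Agent.CH
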