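import Pool.Agent.helper17.CH.SpecV
import Pool.Agent.helper35.MT.AN3
import Pool.Agent.Lib.PrimeSums

/-! Project CH (MP_5628fe_nt), row LF: from the rough L series to the full ones. -/

set_option autoImplicit false

namespace Pool.Agent.CH

open Finset ArithmeticFunction
open Pool.Agent.helper39.MT (GG h35_summable_of_log h35_norm_GG_coeff h35_GG_summable)

/-! ### Part 1: von Mangoldt -/

private noncomputable def LF_v (j : ℕ) (w : ℕ × ℕ) : ℝ :=
  Real.log w.1 * ((w.2 : ℝ) * Real.log w.1) ^ j / (w.1 : ℝ) ^ w.2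

private theorem LF_v_nonneg (j : ℕ) (w : ℕ × ℕ) : 0 ≤ LF_v j w := by
  unfold LF_v
  have := Real.log_natCast_nonneg w.1
  positivity

open Classical in
private theorem LF_finite (y : ℝ) (j N : ℕ) :
    ∑ n ∈ range N, (if rgh y n then 0 else (vonMangoldt n : ℝ) * Real.log n ^ j / n) ≤
      ∑ w ∈ Nat.primesLE ⌊y⌋₊ ×ˢ Icc 1 N, LF_v j w := by
  have h1 : ∀ n ∈ range N, (if rgh y n then 0 else (vonMangoldt n : ℝ) * Real.log n ^ j / n) ≤
      ∑ w ∈ Nat.primesLE ⌊y⌋₊ ×ˢ Icc 1 N, if w.1 ^ w.2 = n then LF_v j w else 0 := by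
    intro n hn
    have hterm : ∀ w : ℕ × ℕ, 0 ≤ (if w.1 ^ w.2 = n then LF_v j w else 0) := by
      intro w
      split_ifs
      · exact LF_v_nonneg j w
      · exact le_rfl
    have hnn : 0 ≤ ∑ w ∈ Nat.primesLE ⌊y⌋₊ ×ˢ Icc 1 N, if w.1 ^ w.2 = n then LF_v j w else 0 :=
      Finset.sum_nonneg fun w _ => hterm w
    by_cases hr : rgh y n
    · rw [if_pos hr]; exact hnn
    · rw [if_neg hr]
      by_cases hL : (vonMangoldt n : ℝ) = 0
      · rw [hL, zero_mul, zero_div]; exact hnn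
      · have hpp : IsPrimePow n := vonMangoldt_ne_zero_iff.1 hL
        obtain ⟨p, k, hp, hk, hpk⟩ := hpp
        have hp' : p.Prime := hp.nat_prime
        have hn0 : n ≠ 0 := by rw [← hpk]; exact pow_ne_zero _ hp'.ne_zero
        have hpy : (p : ℝ) ≤ y := by
          by_contra hcon
          apply hr
          refine ⟨hn0, fun r hr' hrn => ?_⟩
          rw [← hpk] at hrn
          have : r = p := (Nat.prime_dvd_prime_iff_eq hr' hp').1 (hr'.dvd_of_dvd_pow hrn)
          rw [this]; exact not_le.1 hcon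
        have hmem : (p, k) ∈ Nat.primesLE ⌊y⌋₊ ×ˢ Icc 1 N := by
          rw [Finset.mem_product, Nat.mem_primesLE, Finset.mem_Icc]
          refine ⟨⟨Nat.le_floor hpy, hp'⟩, hk, ?_⟩
          have h2 : k < p ^ k := Nat.lt_pow_self hp'.one_lt
          rw [hpk] at h2
          have h3 := Finset.mem_range.1 hn
          omega
        refine le_trans ?_ (Finset.single_le_sum
          (f := fun w : ℕ × ℕ => if w.1 ^ w.2 = n then LF_v j w else 0)
          (fun w _ => hterm w) hmem)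
        simp only [hpk, if_true]
        unfold LF_v
        simp only
        rw [← hpk, vonMangoldt_apply_pow hk.ne', vonMangoldt_apply_prime hp']
        push_cast
        rw [Real.log_pow]
  refine (Finset.sum_le_sum h1).trans ?_
  rw [Finset.sum_comm]
  refine Finset.sum_le_sum fun w _ => ?_
  rw [Finset.sum_ite_eq]
  split_ifs
  · exact le_rfl
  · exact LF_v_nonneg j w

private theorem LF_sum (j : ℕ) : ∃ C : ℝ, 0 < C ∧ ∀ (y : ℝ) (N : ℕ), Real.exp 1 ≤ y →
    ∑ w ∈ Nat.primesLE ⌊y⌋₊ ×ˢ Icc 1 N, LF_v j w ≤ C * Real.log y ^ (j + 1) := by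
  have hsum : Summable (fun n : ℕ => (n : ℝ) ^ j * (1 / 2 : ℝ) ^ n) :=
    summable_pow_mul_geometric_of_norm_lt_one j (by norm_num)
  set S : ℝ := ∑' n : ℕ, (n : ℝ) ^ j * (1 / 2 : ℝ) ^ n with hS
  have hS0 : 0 ≤ S := tsum_nonneg fun n => by positivity
  refine ⟨6 * (S + 1), by positivity, fun y N hy => ?_⟩
  have hy0 : 0 < y := lt_of_lt_of_le (Real.exp_pos _) hy
  have hlogy : 1 ≤ Real.log y := by
    rw [Real.le_log_iff_exp_le hy0]; exact hy
  have hy2 : (2 : ℝ) ≤ y := by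
    have := Real.add_one_le_exp (1 : ℝ)
    linarith
  have hfl : 2 ≤ ⌊y⌋₊ := Nat.le_floor (by exact_mod_cast hy2)
  rw [Finset.sum_product]
  have hin : ∀ p ∈ Nat.primesLE ⌊y⌋₊, ∑ k ∈ Icc 1 N, LF_v j (p, k) ≤
      2 * S * Real.log y ^ j * (Real.log p / p) := by
    intro p hp
    rw [Nat.mem_primesLE] at hp
    obtain ⟨hpy, hpp⟩ := hp
    have hp1 : (1 : ℝ) ≤ p := by exact_mod_cast hpp.one_lt.le
    have hp2 : (2 : ℝ) ≤ p := by exact_mod_cast hpp.two_le
    have hp0 : (0 : ℝ) < p := by linarith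
    have hlp : 0 ≤ Real.log p := Real.log_natCast_nonneg p
    have hlpy : Real.log p ≤ Real.log y := by
      apply Real.log_le_log hp0
      exact (Nat.le_floor_iff hy0.le).1 hpy
    have h1 : ∀ k ∈ Icc 1 N, LF_v j (p, k) ≤
        (Real.log p / p) * Real.log y ^ j * (2 * ((k : ℝ) ^ j * (1 / 2 : ℝ) ^ k)) := by
      intro k hk
      rw [Finset.mem_Icc] at hk
      obtain ⟨k', rfl⟩ : ∃ k', k = k' + 1 := ⟨k - 1, by omega⟩
      unfold LF_v
      simp only
      have h2 : (1 : ℝ) / (p : ℝ) ^ (k' + 1) ≤ 1 / p * (2 * (1 / 2 : ℝ) ^ (k' + 1)) := by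
        have e1 : (1 : ℝ) / p * (2 * (1 / 2 : ℝ) ^ (k' + 1)) = 1 / (p * 2 ^ k') := by
          rw [pow_succ, one_div_pow]
          field_simp
        rw [e1]
        apply one_div_le_one_div_of_le (by positivity)
        rw [pow_succ', ]
        exact mul_le_mul_of_nonneg_left (pow_le_pow_left₀ (by norm_num) hp2 k') hp0.le
      have h3 : Real.log p ^ j ≤ Real.log y ^ j := pow_le_pow_left₀ hlp hlpy j
      have e2 : Real.log p * (((k' + 1 : ℕ) : ℝ) * Real.log p) ^ j / (p : ℝ) ^ (k' + 1) =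
          (Real.log p * ((k' + 1 : ℕ) : ℝ) ^ j) * (Real.log p ^ j * (1 / (p : ℝ) ^ (k' + 1))) := by
        rw [mul_pow]; ring
      rw [e2]
      have h4 : Real.log p ^ j * (1 / (p : ℝ) ^ (k' + 1)) ≤
          Real.log y ^ j * (1 / p * (2 * (1 / 2 : ℝ) ^ (k' + 1))) := by
        apply mul_le_mul h3 h2 (by positivity) (by positivity)
      have h5 := mul_le_mul_of_nonneg_left h4
        (by positivity : 0 ≤ Real.log p * ((k' + 1 : ℕ) : ℝ) ^ j)
      refine h5.trans (le_of_eq ?_)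
      ring
    refine (Finset.sum_le_sum h1).trans ?_
    rw [← Finset.mul_sum, ← Finset.mul_sum]
    have h6 : ∑ k ∈ Icc 1 N, (k : ℝ) ^ j * (1 / 2 : ℝ) ^ k ≤ S :=
      hsum.sum_le_tsum _ (fun k _ => by positivity)
    have h7 : 0 ≤ (Real.log p / p) * Real.log y ^ j := by positivity
    calc (Real.log p / p) * Real.log y ^ j * (2 * ∑ k ∈ Icc 1 N, (k : ℝ) ^ j * (1 / 2 : ℝ) ^ k)
        ≤ (Real.log p / p) * Real.log y ^ j * (2 * S) :=
          mul_le_mul_of_nonneg_left (by linarith) h7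
      _ = 2 * S * Real.log y ^ j * (Real.log p / p) := by ring
  refine (Finset.sum_le_sum hin).trans ?_
  rw [← Finset.mul_sum]
  have h8 := Lib.PrimeSums.sum_log_div_le ⌊y⌋₊ (by omega)
  have h9 : Real.log (⌊y⌋₊ : ℝ) ≤ Real.log y := by
    apply Real.log_le_log (by exact_mod_cast (by omega : 0 < ⌊y⌋₊))
    exact Nat.floor_le hy0.le
  have h10 : Real.log 4 ≤ 2 := by
    have : Real.log 4 = 2 * Real.log 2 := by
      rw [show (4 : ℝ) = 2 ^ 2 by norm_num, Real.log_pow]
      norm_num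
    rw [this]
    have := Real.log_two_lt_d9
    linarith
  have h11 : ∑ p ∈ Nat.primesLE ⌊y⌋₊, Real.log p / p ≤ 3 * Real.log y := by linarith
  calc 2 * S * Real.log y ^ j * ∑ p ∈ Nat.primesLE ⌊y⌋₊, Real.log p / p
      ≤ 2 * S * Real.log y ^ j * (3 * Real.log y) :=
        mul_le_mul_of_nonneg_left h11 (by positivity)
    _ = 6 * S * Real.log y ^ (j + 1) := by ring
    _ ≤ 6 * (S + 1) * Real.log y ^ (j + 1) := by
        apply mul_le_mul_of_nonneg_right (by linarith) (by positivity)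

/-- the norm of an `L` series bounded by partial sums -/
private theorem LF_norm_le {f : ℕ → ℂ} {s : ℂ} (hs : 1 < s.re) (hf : LSeriesSummable f s)
    (g : ℕ → ℝ) (hg : ∀ n : ℕ, n ≠ 0 → ‖f n‖ / n ≤ g n) (hg0 : 0 ≤ g 0) (B : ℝ)
    (hB : ∀ N : ℕ, ∑ n ∈ range N, g n ≤ B) : ‖LSeries f s‖ ≤ B := by
  have h1 : Summable fun n => ‖LSeries.term f s n‖ := hf.norm
  refine (norm_tsum_le_tsum_norm h1).trans ?_
  refine Real.tsum_le_of_sum_range_le (fun n => norm_nonneg _) fun N => ?_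
  refine (Finset.sum_le_sum fun n _ => ?_).trans (hB N)
  rw [LSeries.norm_term_eq]
  split_ifs with h0
  · rw [h0]; exact hg0
  · refine le_trans ?_ (hg n h0)
    have hn : (1 : ℝ) ≤ n := by exact_mod_cast Nat.one_le_iff_ne_zero.2 h0
    apply div_le_div_of_nonneg_left (norm_nonneg _) (by linarith)
    calc (n : ℝ) = (n : ℝ) ^ (1 : ℝ) := (Real.rpow_one _).symm
      _ ≤ (n : ℝ) ^ s.re := Real.rpow_le_rpow_of_exponent_le hn hs.le

private theorem LF_GG (j : ℕ) : ∃ C : ℝ, 0 < C ∧ ∀ (q : ℕ) (χ : DirichletCharacter ℂ q) (y : ℝ)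
    (s : ℂ), Real.exp 1 ≤ y → 1 < s.re →
    ‖GG χ j s - RG χ y j s‖ ≤ C * Real.log y ^ (j + 1) := by
  classical
  obtain ⟨C, hC, h⟩ := LF_sum j
  refine ⟨C, hC, fun q χ y s hy hs => ?_⟩
  have hs1 := h35_GG_summable χ j hs
  have hs2 : LSeriesSummable (fun n => if rgh y n then (vonMangoldt n : ℂ) * χ n *
      (Real.log n : ℂ) ^ j else 0) s := by
    refine h35_summable_of_log (j := j + 1) (fun n => ?_) hs
    split_ifs
    · exact h35_norm_GG_coeff χ j n
    · rw [norm_zero]; exact pow_nonneg (Real.log_natCast_nonneg n) _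
  have e1 : RG χ y j s = LSeries (fun n => if rgh y n then (vonMangoldt n : ℂ) * χ n *
      (Real.log n : ℂ) ^ j else 0) s := by
    unfold RG
    refine LSeries_congr (fun {n} hn => ?_) s
    split_ifs <;> rfl
  rw [e1]
  unfold GG
  rw [← LSeries_sub hs1 hs2]
  refine LF_norm_le hs (hs1.sub hs2)
    (fun n => if rgh y n then 0 else (vonMangoldt n : ℝ) * Real.log n ^ j / n) ?_ ?_ _ ?_
  · intro n hn
    simp only [Pi.sub_apply]
    split_ifs with hr
    · rw [sub_self, norm_zero, zero_div]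
    · rw [sub_zero]
      apply div_le_div_of_nonneg_right _ (Nat.cast_nonneg n)
      rw [norm_mul, norm_mul, norm_pow, Complex.norm_real, Complex.norm_real,
        Real.norm_of_nonneg (Real.log_natCast_nonneg n), Real.norm_of_nonneg vonMangoldt_nonneg]
      apply mul_le_mul_of_nonneg_right _ (pow_nonneg (Real.log_natCast_nonneg n) _)
      exact mul_le_of_le_one_right vonMangoldt_nonneg (χ.norm_le_one _)
  · simp only [rgh, ne_eq, not_true_eq_false, false_and, if_false, Nat.cast_zero, div_zero,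
      le_refl]
  · intro N
    refine le_trans ?_ ((LF_finite y j N).trans (h y N hy))
    refine Finset.sum_le_sum fun n _ => ?_
    split_ifs <;> exact le_rfl

/-! ### Part 2: the Moebius function -/

open Classical in
private noncomputable def LF_A (y : ℝ) : ArithmeticFunction ℤ :=
  ⟨fun n => if rgh y n then moebius n else 0, by simp [rgh]⟩

private noncomputable def LF_B (P : ℕ) : ArithmeticFunction ℤ :=
  ⟨fun n => if n ∣ P then moebius n else 0, by simp⟩

private theorem LF_A_apply (y : ℝ) (n : ℕ) [Decidable (rgh y n)] :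
    LF_A y n = if rgh y n then moebius n else 0 := by
  unfold LF_A
  simp only [coe_mk]
  split_ifs <;> rfl

private theorem LF_B_apply (P n : ℕ) : LF_B P n = if n ∣ P then moebius n else 0 := rfl

private theorem LF_rgh_mul {y : ℝ} {a b : ℕ} (ha : a ≠ 0) (hb : b ≠ 0) :
    rgh y (a * b) ↔ rgh y a ∧ rgh y b := by
  constructor
  · rintro ⟨_, h2⟩
    exact ⟨⟨ha, fun p hp hd => h2 p hp (hd.mul_right b)⟩,
      ⟨hb, fun p hp hd => h2 p hp (hd.mul_left a)⟩⟩
  · rintro ⟨⟨_, h1⟩, ⟨_, h2⟩⟩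
    refine ⟨mul_ne_zero ha hb, fun p hp hd => ?_⟩
    rcases hp.dvd_mul.1 hd with h3 | h3
    · exact h1 p hp h3
    · exact h2 p hp h3

private theorem LF_A_mult (y : ℝ) : (LF_A y).IsMultiplicative := by
  classical
  rw [IsMultiplicative.iff_ne_zero]
  constructor
  · rw [LF_A_apply, if_pos, moebius_apply_one]
    refine ⟨one_ne_zero, fun p hp hd => ?_⟩
    exact absurd (Nat.dvd_one.1 hd) hp.ne_one
  · intro m n hm hn hmn
    rw [LF_A_apply, LF_A_apply, LF_A_apply]
    have h := LF_rgh_mul (y := y) hm hn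
    by_cases h1 : rgh y m
    · by_cases h2 : rgh y n
      · rw [if_pos (h.2 ⟨h1, h2⟩), if_pos h1, if_pos h2, isMultiplicative_moebius.map_mul_of_coprime hmn]
      · rw [if_neg (fun h3 => h2 (h.1 h3).2), if_neg h2, mul_zero]
    · rw [if_neg (fun h3 => h1 (h.1 h3).1), if_neg h1, zero_mul]

private theorem LF_B_mult (P : ℕ) : (LF_B P).IsMultiplicative := by
  rw [IsMultiplicative.iff_ne_zero]
  constructor
  · rw [LF_B_apply, if_pos (one_dvd P), moebius_apply_one]
  · intro m n hm hn hmn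
    rw [LF_B_apply, LF_B_apply, LF_B_apply]
    by_cases h1 : m ∣ P
    · by_cases h2 : n ∣ P
      · rw [if_pos (hmn.mul_dvd_of_dvd_of_dvd h1 h2), if_pos h1, if_pos h2,
          isMultiplicative_moebius.map_mul_of_coprime hmn]
      · rw [if_neg (fun h3 => h2 ((dvd_mul_left n m).trans h3)), if_neg h2, mul_zero]
    · rw [if_neg (fun h3 => h1 ((dvd_mul_right m n).trans h3)), if_neg h1, zero_mul]

private theorem LF_AB (y : ℝ) (hy : 0 ≤ y) : LF_A y * LF_B (primorial ⌊y⌋₊) = moebius := by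
  classical
  rw [((LF_A_mult y).mul (LF_B_mult _)).eq_iff_eq_on_prime_powers _ _ isMultiplicative_moebius]
  intro p i hp
  rw [mul_apply]
  have hp0 : p ^ i ≠ 0 := pow_ne_zero _ hp.ne_zero
  by_cases hpy : p ≤ ⌊y⌋₊
  · -- only the divisor 1 is rough
    rw [Finset.sum_eq_single (1, p ^ i)]
    · simp only
      rw [(LF_A_mult y).map_one, one_mul, LF_B_apply]
      split_ifs with hd
      · rfl
      · symm
        apply moebius_eq_zero_of_not_squarefree
        intro hsq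
        apply hd
        have hi : i ≤ 1 := by
          by_contra hcon
          have h2 : p * p ∣ p ^ i := by
            rw [← pow_two]
            exact pow_dvd_pow p (by omega)
          exact hp.ne_one (Nat.isUnit_iff.1 (hsq p h2))
        have h3 : p ^ i ∣ p ^ 1 := pow_dvd_pow p hi
        rw [pow_one] at h3
        exact h3.trans (hp.dvd_primorial_iff.2 hpy)
    · rintro ⟨a, b⟩ hab hne
      rw [Nat.mem_divisorsAntidiagonal] at hab
      simp only at hab ⊢
      rw [LF_A_apply, if_neg, zero_mul]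
      rintro ⟨_, h4⟩
      have ha1 : a ≠ 1 := by
        rintro rfl
        apply hne
        rw [Prod.mk.injEq]
        exact ⟨rfl, by rw [← hab.1, one_mul]⟩
      obtain ⟨r, hr, hra⟩ := Nat.exists_prime_and_dvd ha1
      have h5 : r = p := by
        have : r ∣ p ^ i := hra.trans ⟨b, hab.1.symm⟩
        exact (Nat.prime_dvd_prime_iff_eq hr hp).1 (hr.dvd_of_dvd_pow this)
      have h6 := h4 r hr hra
      rw [h5] at h6
      exact absurd ((Nat.le_floor_iff hy).1 hpy) (not_le.2 h6)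
    · intro h
      exact absurd (Nat.mem_divisorsAntidiagonal.2 ⟨one_mul _, hp0⟩) h
  · rw [Finset.sum_eq_single (p ^ i, 1)]
    · simp only
      rw [(LF_B_mult _).map_one, mul_one, LF_A_apply, if_pos]
      refine ⟨hp0, fun r hr hd => ?_⟩
      have h5 : r = p := (Nat.prime_dvd_prime_iff_eq hr hp).1 (hr.dvd_of_dvd_pow hd)
      rw [h5]
      by_contra hcon
      exact hpy (Nat.le_floor (not_lt.1 hcon))
    · rintro ⟨a, b⟩ hab hne
      rw [Nat.mem_divisorsAntidiagonal] at hab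
      simp only at hab ⊢
      rw [LF_B_apply, if_neg, mul_zero]
      intro hbP
      have hb1 : b ≠ 1 := by
        rintro rfl
        apply hne
        rw [Prod.mk.injEq]
        exact ⟨by rw [← hab.1, mul_one], rfl⟩
      obtain ⟨r, hr, hrb⟩ := Nat.exists_prime_and_dvd hb1
      have h5 : r = p := by
        have : r ∣ p ^ i := hrb.trans ⟨a, by rw [mul_comm]; exact hab.1.symm⟩
        exact (Nat.prime_dvd_prime_iff_eq hr hp).1 (hr.dvd_of_dvd_pow this)
      exact hpy (h5 ▸ hr.dvd_primorial_iff.1 (hrb.trans hbP))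
    · intro h
      exact absurd (Nat.mem_divisorsAntidiagonal.2 ⟨mul_one _, hp0⟩) h

private noncomputable def LF_fM {q : ℕ} (χ : DirichletCharacter ℂ q) (y : ℝ) (j n : ℕ) : ℂ :=
  ((LF_A y n : ℤ) : ℂ) * χ n * (Real.log n : ℂ) ^ j

private noncomputable def LF_fB {q : ℕ} (χ : DirichletCharacter ℂ q) (P j n : ℕ) : ℂ :=
  ((LF_B P n : ℤ) : ℂ) * χ n * (Real.log n : ℂ) ^ j

private theorem LF_abs_A (y : ℝ) (n : ℕ) : |LF_A y n| ≤ 1 := by
  classical
  rw [LF_A_apply]
  split_ifs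
  · exact abs_moebius_le_one
  · simp

private theorem LF_abs_B (P n : ℕ) : |LF_B P n| ≤ 1 := by
  rw [LF_B_apply]
  split_ifs
  · exact abs_moebius_le_one
  · simp

private theorem LF_coeff {q : ℕ} (χ : DirichletCharacter ℂ q) (a : ℤ) (ha : |a| ≤ 1) (j n : ℕ) :
    ‖(a : ℂ) * χ n * (Real.log n : ℂ) ^ j‖ ≤ Real.log n ^ j := by
  rw [norm_mul, norm_mul, norm_pow, Complex.norm_real,
    Real.norm_of_nonneg (Real.log_natCast_nonneg n)]
  refine mul_le_of_le_one_left (pow_nonneg (Real.log_natCast_nonneg n) _) ?_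
  have h1 : ‖(a : ℂ)‖ ≤ 1 := by
    rw [Complex.norm_intCast]
    exact_mod_cast ha
  calc ‖(a : ℂ)‖ * ‖χ n‖ ≤ 1 * 1 :=
        mul_le_mul h1 (χ.norm_le_one _) (norm_nonneg _) zero_le_one
    _ = 1 := one_mul 1

private theorem LF_sumM {q : ℕ} (χ : DirichletCharacter ℂ q) (y : ℝ) (j : ℕ) {s : ℂ}
    (hs : 1 < s.re) : LSeriesSummable (LF_fM χ y j) s :=
  h35_summable_of_log (fun n => LF_coeff χ _ (LF_abs_A y n) j n) hs

private theorem LF_sumB {q : ℕ} (χ : DirichletCharacter ℂ q) (P j : ℕ) {s : ℂ}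
    (hs : 1 < s.re) : LSeriesSummable (LF_fB χ P j) s :=
  h35_summable_of_log (fun n => LF_coeff χ _ (LF_abs_B P n) j n) hs

private theorem LF_RM {q : ℕ} (χ : DirichletCharacter ℂ q) (y : ℝ) (j : ℕ) (s : ℂ) :
    RM χ y j s = LSeries (LF_fM χ y j) s := by
  classical
  unfold RM
  refine LSeries_congr (fun {n} hn => ?_) s
  unfold LF_fM
  rw [LF_A_apply]
  split_ifs
  · rfl
  · simp

private theorem LF_point {q : ℕ} (χ : DirichletCharacter ℂ q) (y : ℝ) (hy : 0 ≤ y) (j n : ℕ)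
    (hn : n ≠ 0) :
    ((moebius n : ℤ) : ℂ) * χ n * (Real.log n : ℂ) ^ j =
    ∑ i ∈ range (j + 1), (Nat.choose j i : ℂ) *
      ∑ p ∈ n.divisorsAntidiagonal, LF_fM χ y i p.1 * LF_fB χ (primorial ⌊y⌋₊) (j - i) p.2 := by
  have h1 : ∀ p ∈ n.divisorsAntidiagonal,
      ∑ i ∈ range (j + 1), (Nat.choose j i : ℂ) *
        (LF_fM χ y i p.1 * LF_fB χ (primorial ⌊y⌋₊) (j - i) p.2)
      = ((LF_A y p.1 * LF_B (primorial ⌊y⌋₊) p.2 : ℤ) : ℂ) *
        (χ n * (Real.log n : ℂ) ^ j) := by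
    intro p hp
    rw [Nat.mem_divisorsAntidiagonal] at hp
    have hp1 : p.1 ≠ 0 := fun h => hn (by rw [← hp.1, h, zero_mul])
    have hp2 : p.2 ≠ 0 := fun h => hn (by rw [← hp.1, h, mul_zero])
    have hlog : (Real.log n : ℂ) = Real.log p.1 + Real.log p.2 := by
      rw [← hp.1]
      push_cast
      rw [Real.log_mul (by exact_mod_cast hp1) (by exact_mod_cast hp2)]
      push_cast
      ring
    have hχ : χ n = χ p.1 * χ p.2 := by
      rw [← hp.1]; push_cast; rw [map_mul]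
    rw [hlog, hχ, add_pow, Finset.mul_sum, Finset.mul_sum]
    refine Finset.sum_congr rfl fun i _ => ?_
    unfold LF_fM LF_fB
    push_cast
    ring
  simp only [Finset.mul_sum]
  rw [Finset.sum_comm]
  rw [Finset.sum_congr rfl h1, ← Finset.sum_mul]
  have h2 : ∑ p ∈ n.divisorsAntidiagonal,
      ((LF_A y p.1 * LF_B (primorial ⌊y⌋₊) p.2 : ℤ) : ℂ) = ((moebius n : ℤ) : ℂ) := by
    rw [← LF_AB y hy, mul_apply]
    push_cast
    rfl
  rw [h2]
  ring

private theorem LF_MM {q : ℕ} (χ : DirichletCharacter ℂ q) (y : ℝ) (hy : 0 ≤ y) (j : ℕ) (s : ℂ)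
    (hs : 1 < s.re) :
    MM χ j s = ∑ i ∈ range (j + 1), (Nat.choose j i : ℂ) * RM χ y i s *
      LSeries (LF_fB χ (primorial ⌊y⌋₊) (j - i)) s := by
  have h1 : ∀ i, RM χ y i s * LSeries (LF_fB χ (primorial ⌊y⌋₊) (j - i)) s
      = LSeries (LSeries.convolution (LF_fM χ y i) (LF_fB χ (primorial ⌊y⌋₊) (j - i))) s := by
    intro i
    rw [LF_RM]
    exact (LSeries_convolution' (LF_sumM χ y i hs) (LF_sumB χ _ (j - i) hs)).symm
  have h2 : ∀ i, LSeriesSummable
      (LSeries.convolution (LF_fM χ y i) (LF_fB χ (primorial ⌊y⌋₊) (j - i))) s := fun i =>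
    (LF_sumM χ y i hs).convolution (LF_sumB χ _ (j - i) hs)
  have h3 : ∀ i ∈ range (j + 1), (Nat.choose j i : ℂ) * RM χ y i s *
      LSeries (LF_fB χ (primorial ⌊y⌋₊) (j - i)) s
      = LSeries ((Nat.choose j i : ℂ) •
        (LSeries.convolution (LF_fM χ y i) (LF_fB χ (primorial ⌊y⌋₊) (j - i)))) s := by
    intro i _
    rw [LSeries_smul, ← h1, mul_assoc]
  rw [Finset.sum_congr rfl h3, ← LSeries_sum (fun i _ => (h2 i).smul _)]
  unfold MM
  refine LSeries_congr (fun {n} hn => ?_) s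
  rw [LF_point χ y hy j n hn]
  simp only [Finset.sum_apply, Pi.smul_apply, LSeries.convolution_def, smul_eq_mul]

/-! ### Part 3: the finite product -/

private noncomputable def LF_pw (c : ℝ) : ArithmeticFunction ℝ :=
  ⟨fun n => if n = 0 then 0 else (n : ℝ) ^ c, by simp⟩

private theorem LF_pw_apply (c : ℝ) (n : ℕ) (hn : n ≠ 0) : LF_pw c n = (n : ℝ) ^ c := by
  unfold LF_pw
  simp [hn]

private theorem LF_pw_mult (c : ℝ) : (LF_pw c).IsMultiplicative := by
  rw [IsMultiplicative.iff_ne_zero]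
  constructor
  · rw [LF_pw_apply c 1 one_ne_zero]; simp
  · intro m n hm hn _
    rw [LF_pw_apply c _ (mul_ne_zero hm hn), LF_pw_apply c _ hm, LF_pw_apply c _ hn]
    push_cast
    exact Real.mul_rpow (Nat.cast_nonneg m) (Nat.cast_nonneg n)

private theorem LF_prod (y : ℝ) (hy : Real.exp 1 ≤ y) :
    ∑ d ∈ (primorial ⌊y⌋₊).divisors, (d : ℝ) ^ (-1 + 1 / Real.log y) ≤
      Real.exp 12 * Real.log y ^ 3 := by
  have hy0 : 0 < y := lt_of_lt_of_le (Real.exp_pos _) hy
  have hlogy : 1 ≤ Real.log y := by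
    rw [Real.le_log_iff_exp_le hy0]; exact hy
  have hy2 : (2 : ℝ) ≤ y := by
    have := Real.add_one_le_exp (1 : ℝ)
    linarith
  have hfl : 2 ≤ ⌊y⌋₊ := Nat.le_floor (by exact_mod_cast hy2)
  set c : ℝ := -1 + 1 / Real.log y with hc
  have h1 : ∑ d ∈ (primorial ⌊y⌋₊).divisors, (d : ℝ) ^ c =
      ∏ p ∈ (primorial ⌊y⌋₊).primeFactors, (1 + LF_pw c p) := by
    rw [(LF_pw_mult c).prodPrimeFactors_one_add_of_squarefree (squarefree_primorial _)]
    refine Finset.sum_congr rfl fun d hd => ?_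
    rw [LF_pw_apply c d (Nat.pos_of_mem_divisors hd).ne']
  rw [h1, primeFactors_primorial]
  have h2 : ∀ p ∈ Nat.primesLE ⌊y⌋₊, 1 + LF_pw c p ≤ Real.exp (3 * (1 / (p : ℝ))) := by
    intro p hp
    rw [Nat.mem_primesLE] at hp
    have hp0 : (0 : ℝ) < p := by exact_mod_cast hp.2.pos
    rw [LF_pw_apply c p hp.2.ne_zero]
    have h3 : (p : ℝ) ^ c ≤ 3 * (1 / (p : ℝ)) := by
      rw [hc, Real.rpow_add hp0, Real.rpow_neg_one, mul_comm]
      rw [one_div (p : ℝ)]
      apply mul_le_mul_of_nonneg_right _ (by positivity)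
      rw [Real.rpow_def_of_pos hp0]
      have h4 : Real.log p * (1 / Real.log y) ≤ 1 := by
        rw [mul_one_div, div_le_one (by linarith)]
        exact Real.log_le_log hp0 ((Nat.le_floor_iff hy0.le).1 hp.1)
      calc Real.exp (Real.log p * (1 / Real.log y)) ≤ Real.exp 1 := Real.exp_le_exp.2 h4
        _ ≤ 3 := by have := Real.exp_one_lt_d9; linarith
    have h5 := Real.add_one_le_exp (3 * (1 / (p : ℝ)))
    linarith
  have h6 : ∏ p ∈ Nat.primesLE ⌊y⌋₊, (1 + LF_pw c p) ≤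
      ∏ p ∈ Nat.primesLE ⌊y⌋₊, Real.exp (3 * (1 / (p : ℝ))) := by
    refine Finset.prod_le_prod (fun p hp => ?_) h2
    rw [Nat.mem_primesLE] at hp
    rw [LF_pw_apply c p hp.2.ne_zero]
    positivity
  refine h6.trans ?_
  rw [← Real.exp_sum, ← Finset.mul_sum]
  have h7 := Lib.PrimeSums.sum_inv_le ⌊y⌋₊ hfl
  have h8 : Real.log (Real.log (⌊y⌋₊ : ℝ)) ≤ Real.log (Real.log y) := by
    apply Real.log_le_log
    · apply Real.log_pos
      exact_mod_cast (by omega : 1 < ⌊y⌋₊)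
    · apply Real.log_le_log (by exact_mod_cast (by omega : 0 < ⌊y⌋₊))
      exact Nat.floor_le hy0.le
  have h9 : 3 * ∑ p ∈ Nat.primesLE ⌊y⌋₊, 1 / (p : ℝ) ≤ 12 + 3 * Real.log (Real.log y) := by
    linarith
  refine (Real.exp_le_exp.2 h9).trans (le_of_eq ?_)
  rw [Real.exp_add]
  congr 1
  have h10 : (3 : ℝ) * Real.log (Real.log y) = Real.log (Real.log y ^ 3) := by
    rw [Real.log_pow]; norm_num
  rw [h10, Real.exp_log (by positivity)]

private theorem LF_PB {q : ℕ} (χ : DirichletCharacter ℂ q) (y : ℝ) (hy : Real.exp 1 ≤ y)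
    (i : ℕ) (s : ℂ) (hs : 1 < s.re) :
    ‖LSeries (LF_fB χ (primorial ⌊y⌋₊) i) s‖ ≤
      i.factorial * Real.exp 12 * Real.log y ^ (i + 3) := by
  have hy0 : 0 < y := lt_of_lt_of_le (Real.exp_pos _) hy
  have hlogy : 1 ≤ Real.log y := by
    rw [Real.le_log_iff_exp_le hy0]; exact hy
  set P := primorial ⌊y⌋₊ with hP
  have hP0 : P ≠ 0 := primorial_ne_zero _
  refine LF_norm_le hs (LF_sumB χ P i hs)
    (fun n => if n ∣ P then (i.factorial : ℝ) * Real.log y ^ i *
      (n : ℝ) ^ (-1 + 1 / Real.log y) else 0) ?_ ?_ _ ?_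
  · intro n hn
    have hn0 : (0 : ℝ) < n := by exact_mod_cast Nat.pos_of_ne_zero hn
    split_ifs with hd
    · have h1 : ‖LF_fB χ P i n‖ ≤ Real.log n ^ i := LF_coeff χ _ (LF_abs_B P n) i n
      have h2 : Real.log n ^ i ≤ i.factorial * Real.log y ^ i * (n : ℝ) ^ (1 / Real.log y) := by
        have h3 := Real.pow_div_factorial_le_exp (Real.log n / Real.log y)
          (div_nonneg (Real.log_natCast_nonneg n) (by linarith)) i
        rw [div_le_iff₀ (by positivity), div_pow, div_le_iff₀ (by positivity)] at h3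
        refine h3.trans (le_of_eq ?_)
        rw [Real.rpow_def_of_pos hn0]
        rw [show Real.log n * (1 / Real.log y) = Real.log n / Real.log y by ring]
        ring
      have e1 : (n : ℝ) ^ (-1 + 1 / Real.log y) = (n : ℝ) ^ (1 / Real.log y) / n := by
        rw [Real.rpow_add hn0, Real.rpow_neg_one]; ring
      rw [e1]
      calc ‖LF_fB χ P i n‖ / n ≤ (i.factorial * Real.log y ^ i * (n : ℝ) ^ (1 / Real.log y)) / n :=
            div_le_div_of_nonneg_right (h1.trans h2) hn0.le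
        _ = _ := by ring
    · have : LF_fB χ P i n = 0 := by
        unfold LF_fB
        rw [LF_B_apply, if_neg hd]
        simp
      rw [this, norm_zero, zero_div]
  · simp [hP0]
  · intro N
    rw [← Finset.sum_filter]
    have h1 : (range N).filter (fun n => n ∣ P) ⊆ P.divisors := by
      intro n hn
      rw [Finset.mem_filter] at hn
      exact Nat.mem_divisors.2 ⟨hn.2, hP0⟩
    refine (Finset.sum_le_sum_of_subset_of_nonneg h1 fun n _ _ => by positivity).trans ?_
    rw [← Finset.mul_sum]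
    have h2 := LF_prod y hy
    calc (i.factorial : ℝ) * Real.log y ^ i * ∑ d ∈ P.divisors, (d : ℝ) ^ (-1 + 1 / Real.log y)
        ≤ (i.factorial : ℝ) * Real.log y ^ i * (Real.exp 12 * Real.log y ^ 3) :=
          mul_le_mul_of_nonneg_left h2 (by positivity)
      _ = i.factorial * Real.exp 12 * Real.log y ^ (i + 3) := by ring

/-! ### Part 4: asymptotics -/

private theorem LF_asym (M : ℝ) (E : ℕ) : ∃ x₀ : ℝ, ∀ x : ℝ, x₀ ≤ x →
    Real.exp 1 ≤ x ∧ 1 ≤ dl x ∧ 0 ≤ ll2 x ∧ M * ll2 x ^ E + M ≤ dl x := by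
  have h1 : Filter.Tendsto Real.log Filter.atTop Filter.atTop := Real.tendsto_log_atTop
  have h2 : (fun t : ℝ => Real.log t ^ E) =o[Filter.atTop] fun t : ℝ => t ^ (19 / 20 : ℝ) :=
    (isLittleO_log_rpow_rpow_atTop (E : ℝ) (by norm_num)).congr_left fun t =>
      Real.rpow_natCast _ _
  have h3 : ∀ᶠ t : ℝ in Filter.atTop, M * Real.log t ^ E ≤ 1 / 2 * t ^ (19 / 20 : ℝ) := by
    have h4 := h2.bound (show (0 : ℝ) < 1 / (2 * (|M| + 1)) by positivity)
    filter_upwards [h4, Filter.eventually_ge_atTop (1 : ℝ)] with t ht ht1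
    have hlt : 0 ≤ Real.log t := Real.log_nonneg ht1
    rw [Real.norm_of_nonneg (by positivity), Real.norm_of_nonneg (by positivity)] at ht
    have h5 : M * Real.log t ^ E ≤ (|M| + 1) * Real.log t ^ E :=
      mul_le_mul_of_nonneg_right (by have := le_abs_self M; linarith) (by positivity)
    have h6 := mul_le_mul_of_nonneg_left ht (by positivity : 0 ≤ |M| + 1)
    have h7 : (|M| + 1) * (1 / (2 * (|M| + 1)) * t ^ (19 / 20 : ℝ)) = 1 / 2 * t ^ (19 / 20 : ℝ) := by
      field_simp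
    linarith
  have h4 : ∀ᶠ t : ℝ in Filter.atTop, 2 * |M| + 1 ≤ t ^ (19 / 20 : ℝ) :=
    (tendsto_rpow_atTop (by norm_num : (0 : ℝ) < 19 / 20)).eventually_ge_atTop _
  have h5 : ∀ᶠ x : ℝ in Filter.atTop, Real.exp 1 ≤ x ∧ 1 ≤ dl x ∧ 0 ≤ ll2 x ∧
      M * ll2 x ^ E + M ≤ dl x := by
    filter_upwards [h1.eventually h3, h1.eventually h4,
      h1.eventually (Filter.eventually_ge_atTop (1 : ℝ)),
      Filter.eventually_ge_atTop (Real.exp 1)] with x hx3 hx4 hx5 hx6
    refine ⟨hx6, ?_, ?_, ?_⟩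
    · unfold dl
      have := abs_nonneg M
      linarith
    · unfold ll2
      exact Real.log_nonneg hx5
    · unfold dl ll2
      have := le_abs_self M
      linarith
  obtain ⟨x₀, hx₀⟩ := Filter.eventually_atTop.1 h5
  exact ⟨x₀, fun x hx => hx₀ x hx⟩

theorem LF (h1 : LG_stmt) : LF_stmt := by
  intro J B K
  obtain ⟨B₁, E, x₀, hLG⟩ := h1 J B K
  choose Cf hCf hGG using LF_GG
  -- the constants
  set C₁ : ℝ := ∑ j ∈ range (J + 1), Cf j with hC₁
  have hC₁le : ∀ j ≤ J, Cf j ≤ C₁ := by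
    intro j hj
    exact Finset.single_le_sum (f := Cf) (fun i _ => (hCf i).le) (Finset.mem_range.2 (by omega))
  set C₂ : ℝ := 2 ^ J * J.factorial * Real.exp 12 with hC₂
  have hC₂0 : 0 ≤ C₂ := by positivity
  have hC₁0 : 0 ≤ C₁ := Finset.sum_nonneg fun i _ => (hCf i).le
  obtain ⟨x₁, hx₁⟩ := LF_asym (C₁ + C₂ + 1) E
  refine ⟨B₁, max x₀ x₁, fun x hx q hq1 hq χ s hs j hj => ?_⟩
  have hLG' := hLG x ((le_max_left _ _).trans hx) q hq1 hq χ s hs
  obtain ⟨hex, hdl, hll, hM⟩ := hx₁ x ((le_max_right _ _).trans hx)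
  have hx0 : 0 < x := lt_of_lt_of_le (Real.exp_pos _) hex
  have hlogx : 1 ≤ Real.log x := by
    rw [Real.le_log_iff_exp_le hx0]; exact hex
  have hsre : 1 < s.re := by
    have h2 := hs.1
    have h3 : 0 < 1 / Real.log x := by positivity
    linarith
  have hy : Real.exp 1 ≤ Real.exp (dl x) := Real.exp_le_exp.2 hdl
  have hlogy : Real.log (Real.exp (dl x)) = dl x := Real.log_exp _
  have hllE : 0 ≤ ll2 x ^ E := pow_nonneg hll E
  have hdl0 : 0 ≤ dl x := by linarith
  constructor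
  · have h2 := hGG j q χ (Real.exp (dl x)) s hy hsre
    rw [hlogy] at h2
    have h3 := (hLG' j hj).1
    have h4 : ‖GG χ j s‖ ≤ ‖GG χ j s - RG χ (Real.exp (dl x)) j s‖ +
        ‖RG χ (Real.exp (dl x)) j s‖ := by
      have := norm_add_le (GG χ j s - RG χ (Real.exp (dl x)) j s) (RG χ (Real.exp (dl x)) j s)
      rw [sub_add_cancel] at this
      exact this
    have h5 : ‖GG χ j s‖ ≤ dl x ^ (j + 1) * (C₁ + ll2 x ^ E) := by
      have h6 : Cf j * dl x ^ (j + 1) ≤ C₁ * dl x ^ (j + 1) :=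
        mul_le_mul_of_nonneg_right (hC₁le j hj) (by positivity)
      nlinarith
    have h7 : C₁ + ll2 x ^ E ≤ dl x := by
      nlinarith [mul_nonneg hC₁0 hllE, mul_nonneg hC₂0 hllE]
    calc ‖GG χ j s‖ ≤ dl x ^ (j + 1) * (C₁ + ll2 x ^ E) := h5
      _ ≤ dl x ^ (j + 1) * dl x := mul_le_mul_of_nonneg_left h7 (by positivity)
      _ = dl x ^ (j + 2) := by ring
  · rw [LF_MM χ (Real.exp (dl x)) (Real.exp_pos _).le j s hsre]
    have h2 : ∀ i ∈ range (j + 1), ‖(Nat.choose j i : ℂ) * RM χ (Real.exp (dl x)) i s *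
        LSeries (LF_fB χ (primorial ⌊Real.exp (dl x)⌋₊) (j - i)) s‖ ≤
        (Nat.choose j i : ℝ) * (J.factorial * Real.exp 12 * (dl x ^ (j + 3) * ll2 x ^ E)) := by
      intro i hi
      have hij : i ≤ j := by have := Finset.mem_range.1 hi; omega
      rw [norm_mul, norm_mul, Complex.norm_natCast, mul_assoc]
      apply mul_le_mul_of_nonneg_left _ (Nat.cast_nonneg _)
      have h3 := (hLG' i (hij.trans hj)).2
      have h4 := LF_PB χ (Real.exp (dl x)) hy (j - i) s hsre
      rw [hlogy] at h4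
      have h5 : ((j - i).factorial : ℝ) ≤ (J.factorial : ℝ) := by
        exact_mod_cast Nat.factorial_le (by omega)
      calc ‖RM χ (Real.exp (dl x)) i s‖ *
            ‖LSeries (LF_fB χ (primorial ⌊Real.exp (dl x)⌋₊) (j - i)) s‖
          ≤ (dl x ^ i * ll2 x ^ E) *
            ((j - i).factorial * Real.exp 12 * dl x ^ (j - i + 3)) :=
            mul_le_mul h3 h4 (norm_nonneg _) (by positivity)
        _ ≤ (dl x ^ i * ll2 x ^ E) *
            (J.factorial * Real.exp 12 * dl x ^ (j - i + 3)) := by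
            apply mul_le_mul_of_nonneg_left _ (by positivity)
            apply mul_le_mul_of_nonneg_right _ (by positivity)
            exact mul_le_mul_of_nonneg_right h5 (by positivity)
        _ = J.factorial * Real.exp 12 * (dl x ^ (i + (j - i + 3)) * ll2 x ^ E) := by
            rw [pow_add (dl x) i (j - i + 3)]
            ring
        _ = J.factorial * Real.exp 12 * (dl x ^ (j + 3) * ll2 x ^ E) := by
            rw [show i + (j - i + 3) = j + 3 by omega]
    refine (norm_sum_le _ _).trans ((Finset.sum_le_sum h2).trans ?_)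
    rw [← Finset.sum_mul]
    have h6 : ∑ i ∈ range (j + 1), (Nat.choose j i : ℝ) = 2 ^ j := by
      exact_mod_cast Nat.sum_range_choose j
    rw [h6]
    have h7 : (2 : ℝ) ^ j ≤ 2 ^ J := pow_le_pow_right₀ (by norm_num) hj
    have h8 : C₂ * ll2 x ^ E ≤ dl x := by
      nlinarith [mul_nonneg hC₁0 hllE, mul_nonneg hC₂0 hllE]
    calc (2 : ℝ) ^ j * (J.factorial * Real.exp 12 * (dl x ^ (j + 3) * ll2 x ^ E))
        ≤ 2 ^ J * (J.factorial * Real.exp 12 * (dl x ^ (j + 3) * ll2 x ^ E)) :=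
          mul_le_mul_of_nonneg_right h7 (by positivity)
      _ = dl x ^ (j + 3) * (C₂ * ll2 x ^ E) := by rw [hC₂]; ring
      _ ≤ dl x ^ (j + 3) * dl x := mul_le_mul_of_nonneg_left h8 (by positivity)
      _ = dl x ^ (j + 4) := by ring

end Pool.Agent.CH
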